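import Mathlib
import Pool.Agent.H329R2.AD.Defs

/-!
# Additive divisor problem, task C: `ram_sum`, `BB_asymp`, `SS_pos`

Facts on `LL` and `dk` (task B) enter as hypotheses.
-/

set_option autoImplicit false

open Finset Filter Topology Pool.Agent.H329R2.AD

namespace Pool.Agent.H896R2.ADC

/-- C1 -/
theorem ram_sum (g h : ℕ) (hg : 1 ≤ g) :
    ∑ e ∈ g.divisors, ram e h = if g ∣ h then (g : ℝ) else 0 := by
  have key := (ArithmeticFunction.sum_eq_iff_sum_mul_moebius_eq (R := ℝ)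
    (f := fun e => ram e h) (g := fun g => if g ∣ h then (g : ℝ) else 0)).2
  refine key ?_ g hg
  intro n hn
  rw [Nat.sum_divisorsAntidiagonal' (f := fun a b => ((ArithmeticFunction.moebius a : ℤ) : ℝ) *
    (if b ∣ h then (b : ℝ) else 0))]
  unfold ram
  rw [Finset.sum_filter]
  refine Finset.sum_congr rfl fun d hd => ?_
  split_ifs <;> simp

theorem dk_nonneg (k n : ℕ) : 0 ≤ dk k n := Nat.cast_nonneg _

theorem LL_nonneg (k : ℕ) (y : ℝ) (e : ℕ) : 0 ≤ LL k y e :=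
  Finset.sum_nonneg fun _ _ => div_nonneg (dk_nonneg _ _) (Nat.cast_nonneg _)

theorem LL_eq_zero (k : ℕ) (y : ℝ) (e : ℕ) (he : ⌊y⌋₊ < e) : LL k y e = 0 := by
  unfold LL
  apply Finset.sum_eq_zero
  intro m hm
  rw [Finset.mem_filter, Finset.mem_Icc] at hm
  have := Nat.le_of_dvd (by omega) hm.2
  omega

theorem ram_abs_le (e h : ℕ) (hh : 1 ≤ h) : |ram e h| ≤ ∑ d ∈ h.divisors, (d : ℝ) := by
  unfold ram
  refine (Finset.abs_sum_le_sum_abs _ _).trans ?_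
  calc ∑ d ∈ e.divisors.filter (fun d => d ∣ h),
        |((ArithmeticFunction.moebius (e / d) : ℤ) : ℝ) * (d : ℝ)|
      ≤ ∑ d ∈ e.divisors.filter (fun d => d ∣ h), (d : ℝ) := by
        refine Finset.sum_le_sum fun d _ => ?_
        rw [abs_mul, Nat.abs_cast]
        have h1 : |((ArithmeticFunction.moebius (e / d) : ℤ) : ℝ)| ≤ 1 := by
          have := ArithmeticFunction.abs_moebius_le_one (n := e / d)
          exact_mod_cast this
        calc |((ArithmeticFunction.moebius (e / d) : ℤ) : ℝ)| * (d : ℝ) ≤ 1 * (d : ℝ) :=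
              mul_le_mul_of_nonneg_right h1 (Nat.cast_nonneg _)
          _ = d := one_mul _
    _ ≤ ∑ d ∈ h.divisors, (d : ℝ) := by
        refine Finset.sum_le_sum_of_subset_of_nonneg ?_ fun _ _ _ => Nat.cast_nonneg _
        intro d hd
        rw [Finset.mem_filter] at hd
        exact Nat.mem_divisors.mpr ⟨hd.2, by omega⟩

theorem BB_eq (k h : ℕ) (y₁ y₂ : ℝ) :
    BB k h y₁ y₂ = ∑ e ∈ Icc 1 ⌊y₁⌋₊, ram e h * LL k y₁ e * LL k y₂ e := by
  have hterm : ∀ m ∈ Icc 1 ⌊y₁⌋₊, ∀ M ∈ Icc 1 ⌊y₂⌋₊,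
      (if Nat.gcd m M ∣ h then dk k m * dk k M * (Nat.gcd m M : ℝ) / ((m : ℝ) * (M : ℝ)) else 0) =
      ∑ e ∈ Icc 1 ⌊y₁⌋₊, (if e ∣ m then (if e ∣ M then
        ram e h * (dk k m / m) * (dk k M / M) else 0) else 0) := by
    intro m hm M hM
    rw [Finset.mem_Icc] at hm hM
    have hg : 1 ≤ Nat.gcd m M := Nat.gcd_pos_of_pos_left _ (by omega)
    have hm0 : (m : ℝ) ≠ 0 := by
      have : (0 : ℝ) < m := by exact_mod_cast hm.1
      exact this.ne'
    have hM0 : (M : ℝ) ≠ 0 := by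
      have : (0 : ℝ) < M := by exact_mod_cast hM.1
      exact this.ne'
    have h1 : ∑ e ∈ Icc 1 ⌊y₁⌋₊, (if e ∣ m then (if e ∣ M then
        ram e h * (dk k m / m) * (dk k M / M) else 0) else 0) =
        ∑ e ∈ (Nat.gcd m M).divisors, ram e h * (dk k m / m) * (dk k M / M) := by
      have hset : (Nat.gcd m M).divisors = (Icc 1 ⌊y₁⌋₊).filter (fun e => e ∣ m ∧ e ∣ M) := by
        ext e
        rw [Nat.mem_divisors, Finset.mem_filter, Finset.mem_Icc, Nat.dvd_gcd_iff]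
        constructor
        · rintro ⟨⟨ha, hb⟩, _⟩
          refine ⟨⟨Nat.pos_of_dvd_of_pos ha (by omega), ?_⟩, ha, hb⟩
          exact (Nat.le_of_dvd (by omega) ha).trans hm.2
        · rintro ⟨_, ha, hb⟩
          exact ⟨⟨ha, hb⟩, by omega⟩
      rw [hset, Finset.sum_filter]
      refine Finset.sum_congr rfl fun e _ => ?_
      by_cases ha : e ∣ m <;> by_cases hb : e ∣ M <;> simp [ha, hb]
    rw [h1, ← Finset.sum_mul, ← Finset.sum_mul, ram_sum _ _ hg]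
    split_ifs
    · field_simp
    · simp
  unfold BB
  rw [Finset.sum_congr rfl fun m hm => Finset.sum_congr rfl fun M hM => hterm m hm M hM]
  have hswap : ∀ m ∈ Icc 1 ⌊y₁⌋₊, ∑ M ∈ Icc 1 ⌊y₂⌋₊, ∑ e ∈ Icc 1 ⌊y₁⌋₊,
      (if e ∣ m then (if e ∣ M then ram e h * (dk k m / m) * (dk k M / M) else 0) else 0) =
      ∑ e ∈ Icc 1 ⌊y₁⌋₊, ∑ M ∈ Icc 1 ⌊y₂⌋₊,
      (if e ∣ m then (if e ∣ M then ram e h * (dk k m / m) * (dk k M / M) else 0) else 0) :=
    fun m _ => Finset.sum_comm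
  rw [Finset.sum_congr rfl hswap, Finset.sum_comm]
  refine Finset.sum_congr rfl fun e _ => ?_
  unfold LL
  rw [mul_assoc, Finset.sum_mul_sum, Finset.mul_sum, Finset.sum_filter]
  refine Finset.sum_congr rfl fun m _ => ?_
  split_ifs with ha
  · rw [Finset.mul_sum, Finset.sum_filter]
    refine Finset.sum_congr rfl fun M _ => ?_
    split_ifs
    · ring
    · rfl
  · simp

theorem BB_tsum (k h : ℕ) (y₁ y₂ : ℝ) :
    BB k h y₁ y₂ = ∑' e : ℕ, ram (e + 1) h * LL k y₁ (e + 1) * LL k y₂ (e + 1) := by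
  rw [BB_eq, tsum_eq_sum (s := range ⌊y₁⌋₊)]
  · rw [Finset.range_eq_Ico,
      Finset.sum_Ico_add' (fun e => ram e h * LL k y₁ e * LL k y₂ e) 0 ⌊y₁⌋₊ 1]
    refine Finset.sum_congr ?_ fun _ _ => rfl
    ext e
    simp only [Finset.mem_Icc, Finset.mem_Ico]
    omega
  · intro e he
    rw [Finset.mem_range, not_lt] at he
    rw [LL_eq_zero k y₁ (e + 1) (by omega)]
    ring

/-- C2 -/
theorem BB_asymp_of (k h : ℕ) (hh : 1 ≤ h)
    (hLL : ∀ e : ℕ, 1 ≤ e → ∀ y : ℝ, 1 ≤ y → LL k y e ≤ dk k e / e * (1 + Real.log y) ^ k)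
    (hLa : ∀ e : ℕ, 1 ≤ e →
      Tendsto (fun y : ℝ => LL k y e / Real.log y ^ k) atTop (𝓝 (Pr k e / k.factorial)))
    (hdk : ∃ C : ℝ, 1 ≤ C ∧ ∀ n : ℕ, 1 ≤ n → dk k n ≤ C * (n : ℝ) ^ (1 / 4 : ℝ))
    (a b : ℝ) (ha : 0 < a) (hb : 0 < b) :
    Tendsto (fun x : ℝ => BB k h (x ^ a) (x ^ b) / Real.log x ^ (2 * k)) atTop
      (𝓝 (a ^ k * b ^ k / (k.factorial : ℝ) ^ 2 * SS (k + 1) h)) := by
  obtain ⟨C, hC1, hC⟩ := hdk
  set σ : ℝ := ∑ d ∈ h.divisors, (d : ℝ) with hσ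
  have hσ0 : 0 ≤ σ := Finset.sum_nonneg fun _ _ => Nat.cast_nonneg _
  have hfun : (fun x : ℝ => BB k h (x ^ a) (x ^ b) / Real.log x ^ (2 * k)) =
      fun x : ℝ => ∑' e : ℕ, ram (e + 1) h * (LL k (x ^ a) (e + 1) / Real.log x ^ k) *
        (LL k (x ^ b) (e + 1) / Real.log x ^ k) := by
    funext x
    rw [BB_tsum, ← tsum_div_const]
    refine tsum_congr fun e => ?_
    rw [two_mul, pow_add]
    ring
  have hlim : a ^ k * b ^ k / (k.factorial : ℝ) ^ 2 * SS (k + 1) h =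
      ∑' e : ℕ, ram (e + 1) h * (a ^ k * (Pr k (e + 1) / k.factorial)) *
        (b ^ k * (Pr k (e + 1) / k.factorial)) := by
    unfold SS
    rw [← tsum_mul_left, Nat.add_sub_cancel]
    refine tsum_congr fun e => ?_
    ring
  rw [hfun, hlim]
  -- pointwise limits
  have hpt : ∀ c : ℝ, 0 < c → ∀ e : ℕ, 1 ≤ e →
      Tendsto (fun x : ℝ => LL k (x ^ c) e / Real.log x ^ k) atTop
        (𝓝 (c ^ k * (Pr k e / k.factorial))) := by
    intro c hc e he
    have h1 := (hLa e he).comp (tendsto_rpow_atTop hc)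
    have h2 := h1.const_mul (c ^ k)
    refine h2.congr' ?_
    filter_upwards [eventually_gt_atTop 1] with x hx
    have hx0 : 0 < x := by linarith
    have hlog : 0 < Real.log x := Real.log_pos hx
    simp only [Function.comp]
    rw [Real.log_rpow hx0, mul_pow]
    have hck : c ^ k ≠ 0 := pow_ne_zero _ hc.ne'
    have hlk : Real.log x ^ k ≠ 0 := pow_ne_zero _ hlog.ne'
    field_simp
  -- domination
  have hdom : ∀ c : ℝ, 0 < c → ∀ x : ℝ, 3 ≤ x → ∀ e : ℕ, 1 ≤ e →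
      LL k (x ^ c) e / Real.log x ^ k ≤ (1 + c) ^ k * (C * (e : ℝ) ^ (-(3 / 4) : ℝ)) := by
    intro c hc x hx e he
    have hx0 : 0 < x := by linarith
    have hlog : 1 ≤ Real.log x := by
      rw [Real.le_log_iff_exp_le hx0]
      exact (Real.exp_one_lt_d9.le.trans (by norm_num)).trans hx
    have hxc : 1 ≤ x ^ c := Real.one_le_rpow (by linarith) hc.le
    have h1 := hLL e he (x ^ c) hxc
    rw [Real.log_rpow hx0] at h1
    have he0 : (0 : ℝ) < e := by exact_mod_cast he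
    have h2 : dk k e / e ≤ C * (e : ℝ) ^ (-(3 / 4) : ℝ) := by
      rw [div_le_iff₀ he0]
      calc dk k e ≤ C * (e : ℝ) ^ (1 / 4 : ℝ) := hC e he
        _ = C * (e : ℝ) ^ (-(3 / 4) : ℝ) * e := by
          rw [mul_assoc]
          congr 1
          nth_rw 3 [← Real.rpow_one (e : ℝ)]
          rw [← Real.rpow_add he0]
          norm_num
    have h3 : (1 + c * Real.log x) ^ k ≤ ((1 + c) * Real.log x) ^ k := by
      apply pow_le_pow_left₀
      · nlinarith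
      · nlinarith
    have hlk : 0 < Real.log x ^ k := by positivity
    rw [div_le_iff₀ hlk]
    calc LL k (x ^ c) e ≤ dk k e / e * (1 + c * Real.log x) ^ k := h1
      _ ≤ (C * (e : ℝ) ^ (-(3 / 4) : ℝ)) * ((1 + c) * Real.log x) ^ k := by
          apply mul_le_mul h2 h3
          · apply pow_nonneg
            nlinarith
          · positivity
      _ = (1 + c) ^ k * (C * (e : ℝ) ^ (-(3 / 4) : ℝ)) * Real.log x ^ k := by
          rw [mul_pow]; ring
  refine tendsto_tsum_of_dominated_convergence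
    (bound := fun e : ℕ => σ * ((1 + a) ^ k * (1 + b) ^ k * C ^ 2) *
      ((e + 1 : ℕ) : ℝ) ^ (-(3 / 2) : ℝ)) ?_ ?_ ?_
  · apply Summable.mul_left
    have hs : Summable (fun e : ℕ => ((e : ℕ) : ℝ) ^ (-(3 / 2) : ℝ)) :=
      Real.summable_nat_rpow.mpr (by norm_num)
    exact (summable_nat_add_iff (f := fun e : ℕ => ((e : ℕ) : ℝ) ^ (-(3 / 2) : ℝ)) 1).mpr hs
  · intro e
    exact ((tendsto_const_nhds (x := ram (e + 1) h)).mul (hpt a ha (e + 1) (by omega))).mul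
      (hpt b hb (e + 1) (by omega))
  · filter_upwards [eventually_ge_atTop 3] with x hx e
    have hx0 : 0 < x := by linarith
    have hlog : 0 < Real.log x := Real.log_pos (by linarith)
    have hlk : 0 < Real.log x ^ k := by positivity
    have he0 : (0 : ℝ) < ((e + 1 : ℕ) : ℝ) := by exact_mod_cast Nat.succ_pos e
    rw [Real.norm_eq_abs, abs_mul, abs_mul,
      abs_of_nonneg (div_nonneg (LL_nonneg k (x ^ a) (e + 1)) hlk.le),
      abs_of_nonneg (div_nonneg (LL_nonneg k (x ^ b) (e + 1)) hlk.le)]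
    have h1 := hdom a ha x hx (e + 1) (by omega)
    have h2 := hdom b hb x hx (e + 1) (by omega)
    have h3 := ram_abs_le (e + 1) h hh
    calc |ram (e + 1) h| * (LL k (x ^ a) (e + 1) / Real.log x ^ k) *
          (LL k (x ^ b) (e + 1) / Real.log x ^ k)
        ≤ (σ * ((1 + a) ^ k * (C * ((e + 1 : ℕ) : ℝ) ^ (-(3 / 4) : ℝ)))) *
          ((1 + b) ^ k * (C * ((e + 1 : ℕ) : ℝ) ^ (-(3 / 4) : ℝ))) := by
          apply mul_le_mul
          · exact mul_le_mul h3 h1 (div_nonneg (LL_nonneg k (x ^ a) (e + 1)) hlk.le) hσ0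
          · exact h2
          · exact div_nonneg (LL_nonneg k (x ^ b) (e + 1)) hlk.le
          · positivity
      _ = σ * ((1 + a) ^ k * (1 + b) ^ k * C ^ 2) * ((e + 1 : ℕ) : ℝ) ^ (-(3 / 2) : ℝ) := by
          have : ((e + 1 : ℕ) : ℝ) ^ (-(3 / 2) : ℝ) =
              ((e + 1 : ℕ) : ℝ) ^ (-(3 / 4) : ℝ) * ((e + 1 : ℕ) : ℝ) ^ (-(3 / 4) : ℝ) := by
            rw [← Real.rpow_add he0]
            norm_num
          rw [this]
          ring

theorem Pr_one (k : ℕ) : Pr k 1 = 1 := by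
  unfold Pr
  simp

/-- the finite gcd inequality -/
theorem gcd_ineq (k N : ℕ) (hmul : ∀ a b : ℕ, dk k (a * b) ≤ dk k a * dk k b) :
    (∑ m ∈ Icc 1 N, dk k m / m) ^ 2 ≤ (∑ g ∈ Icc 1 N, (dk k g / g) ^ 2) *
      ∑ m ∈ Icc 1 N, ∑ M ∈ Icc 1 N, (if Nat.gcd m M = 1 then (dk k m / m) * (dk k M / M) else 0) := by
  set f : ℕ → ℝ := fun m => dk k m / m with hf
  have hf0 : ∀ m, 0 ≤ f m := fun m => div_nonneg (dk_nonneg _ _) (Nat.cast_nonneg _)
  have hfmul : ∀ a b : ℕ, f (a * b) ≤ f a * f b := by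
    intro a b
    simp only [hf]
    rw [div_mul_div_comm, Nat.cast_mul]
    exact div_le_div_of_nonneg_right (hmul a b) (by positivity)
  -- rewrite as sums over products
  have hL : (∑ m ∈ Icc 1 N, f m) ^ 2 = ∑ p ∈ Icc 1 N ×ˢ Icc 1 N, f p.1 * f p.2 := by
    rw [sq, Finset.sum_mul_sum, ← Finset.sum_product']
  have hR : ∑ m ∈ Icc 1 N, ∑ M ∈ Icc 1 N, (if Nat.gcd m M = 1 then f m * f M else 0) =
      ∑ p ∈ (Icc 1 N ×ˢ Icc 1 N).filter (fun p => Nat.gcd p.1 p.2 = 1), f p.1 * f p.2 := by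
    rw [Finset.sum_filter, ← Finset.sum_product']
  show (∑ m ∈ Icc 1 N, f m) ^ 2 ≤ (∑ g ∈ Icc 1 N, (f g) ^ 2) *
      ∑ m ∈ Icc 1 N, ∑ M ∈ Icc 1 N, (if Nat.gcd m M = 1 then f m * f M else 0)
  rw [hL, hR, Finset.sum_mul_sum, ← Finset.sum_product']
  -- the map
  let φ : ℕ × ℕ → ℕ × (ℕ × ℕ) := fun p =>
    (Nat.gcd p.1 p.2, (p.1 / Nat.gcd p.1 p.2, p.2 / Nat.gcd p.1 p.2))
  have hinj : Set.InjOn φ (Icc 1 N ×ˢ Icc 1 N : Finset (ℕ × ℕ)) := by
    intro p hp q hq hpq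
    simp only [φ, Prod.mk.injEq] at hpq
    obtain ⟨h1, h2, h3⟩ := hpq
    have e1 : p.1 = q.1 := by
      rw [← Nat.div_mul_cancel (Nat.gcd_dvd_left p.1 p.2), h2, h1,
        Nat.div_mul_cancel (Nat.gcd_dvd_left q.1 q.2)]
    have e2 : p.2 = q.2 := by
      rw [← Nat.div_mul_cancel (Nat.gcd_dvd_right p.1 p.2), h3, h1,
        Nat.div_mul_cancel (Nat.gcd_dvd_right q.1 q.2)]
    exact Prod.ext e1 e2
  calc ∑ p ∈ Icc 1 N ×ˢ Icc 1 N, f p.1 * f p.2
      ≤ ∑ p ∈ Icc 1 N ×ˢ Icc 1 N,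
        (fun x : ℕ × (ℕ × ℕ) => (f x.1) ^ 2 * (f x.2.1 * f x.2.2)) (φ p) := by
        refine Finset.sum_le_sum fun p hp => ?_
        simp only [φ]
        have e1 : f p.1 ≤ f (Nat.gcd p.1 p.2) * f (p.1 / Nat.gcd p.1 p.2) := by
          have := hfmul (Nat.gcd p.1 p.2) (p.1 / Nat.gcd p.1 p.2)
          rwa [Nat.mul_div_cancel' (Nat.gcd_dvd_left p.1 p.2)] at this
        have e2 : f p.2 ≤ f (Nat.gcd p.1 p.2) * f (p.2 / Nat.gcd p.1 p.2) := by
          have := hfmul (Nat.gcd p.1 p.2) (p.2 / Nat.gcd p.1 p.2)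
          rwa [Nat.mul_div_cancel' (Nat.gcd_dvd_right p.1 p.2)] at this
        calc f p.1 * f p.2 ≤ (f (Nat.gcd p.1 p.2) * f (p.1 / Nat.gcd p.1 p.2)) *
              (f (Nat.gcd p.1 p.2) * f (p.2 / Nat.gcd p.1 p.2)) :=
              mul_le_mul e1 e2 (hf0 _) (mul_nonneg (hf0 _) (hf0 _))
          _ = _ := by ring
    _ = ∑ x ∈ (Icc 1 N ×ˢ Icc 1 N).image φ, (f x.1) ^ 2 * (f x.2.1 * f x.2.2) := by
        rw [Finset.sum_image hinj]
    _ ≤ ∑ x ∈ Icc 1 N ×ˢ (Icc 1 N ×ˢ Icc 1 N).filter (fun p => Nat.gcd p.1 p.2 = 1),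
        (f x.1) ^ 2 * (f x.2.1 * f x.2.2) := by
        refine Finset.sum_le_sum_of_subset_of_nonneg ?_ ?_
        · intro x hx
          rw [Finset.mem_image] at hx
          obtain ⟨p, hp, rfl⟩ := hx
          rw [Finset.mem_product, Finset.mem_Icc, Finset.mem_Icc] at hp
          have hg : 0 < Nat.gcd p.1 p.2 := Nat.gcd_pos_of_pos_left _ (by omega)
          have hd1 := Nat.gcd_dvd_left p.1 p.2
          have hd2 := Nat.gcd_dvd_right p.1 p.2
          simp only [φ, Finset.mem_product, Finset.mem_filter, Finset.mem_Icc]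
          refine ⟨⟨hg, (Nat.le_of_dvd (by omega) hd1).trans hp.1.2⟩, ⟨⟨?_, ?_⟩, ?_, ?_⟩, ?_⟩
          · exact Nat.div_pos (Nat.le_of_dvd (by omega) hd1) hg
          · exact (Nat.div_le_self _ _).trans hp.1.2
          · exact Nat.div_pos (Nat.le_of_dvd (by omega) hd2) hg
          · exact (Nat.div_le_self _ _).trans hp.2.2
          · exact Nat.coprime_div_gcd_div_gcd hg
        · intro x _ _
          exact mul_nonneg (sq_nonneg _) (mul_nonneg (hf0 _) (hf0 _))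

/-- C3 -/
theorem SS_pos_of (k h : ℕ) (hh : 1 ≤ h)
    (hmul : ∀ a b : ℕ, dk k (a * b) ≤ dk k a * dk k b)
    (hLL : ∀ e : ℕ, 1 ≤ e → ∀ y : ℝ, 1 ≤ y → LL k y e ≤ dk k e / e * (1 + Real.log y) ^ k)
    (hLa : ∀ e : ℕ, 1 ≤ e →
      Tendsto (fun y : ℝ => LL k y e / Real.log y ^ k) atTop (𝓝 (Pr k e / k.factorial)))
    (hdk : ∃ C : ℝ, 1 ≤ C ∧ ∀ n : ℕ, 1 ≤ n → dk k n ≤ C * (n : ℝ) ^ (1 / 4 : ℝ)) :
    0 < SS (k + 1) h := by
  have hBB := BB_asymp_of k h hh hLL hLa hdk 1 1 one_pos one_pos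
  obtain ⟨C, hC1, hC⟩ := hdk
  -- summability of (d_k(g)/g)^2
  have hsum : Summable (fun g : ℕ => (dk k g / g) ^ 2) := by
    have hs : Summable (fun e : ℕ => C ^ 2 * ((e : ℕ) : ℝ) ^ (-(3 / 2) : ℝ)) :=
      (Real.summable_nat_rpow.mpr (by norm_num)).mul_left _
    refine Summable.of_nonneg_of_le (fun g => sq_nonneg _) ?_ hs
    intro g
    rcases Nat.eq_zero_or_pos g with rfl | hg
    · simp
    · have hg0 : (0 : ℝ) < g := by exact_mod_cast hg
      have h2 : dk k g / g ≤ C * (g : ℝ) ^ (-(3 / 4) : ℝ) := by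
        rw [div_le_iff₀ hg0]
        calc dk k g ≤ C * (g : ℝ) ^ (1 / 4 : ℝ) := hC g hg
          _ = C * (g : ℝ) ^ (-(3 / 4) : ℝ) * g := by
            rw [mul_assoc]
            congr 1
            nth_rw 3 [← Real.rpow_one (g : ℝ)]
            rw [← Real.rpow_add hg0]
            norm_num
      calc (dk k g / g) ^ 2 ≤ (C * (g : ℝ) ^ (-(3 / 4) : ℝ)) ^ 2 :=
            pow_le_pow_left₀ (div_nonneg (dk_nonneg _ _) hg0.le) h2 2
        _ = C ^ 2 * (g : ℝ) ^ (-(3 / 2) : ℝ) := by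
            rw [mul_pow, ← Real.rpow_natCast ((g : ℝ) ^ (-(3 / 4) : ℝ)) 2, ← Real.rpow_mul hg0.le]
            norm_num
  set K : ℝ := 1 + ∑' g : ℕ, (dk k g / g) ^ 2 with hK
  have hK0 : 0 < K := by
    have : 0 ≤ ∑' g : ℕ, (dk k g / (g : ℝ)) ^ 2 := tsum_nonneg fun _ => sq_nonneg _
    linarith
  have hineq : ∀ y : ℝ, (LL k y 1) ^ 2 / K ≤ BB k h y y := by
    intro y
    rw [div_le_iff₀ hK0]
    have h1 : LL k y 1 = ∑ m ∈ Icc 1 ⌊y⌋₊, dk k m / m := by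
      unfold LL
      rw [Finset.filter_true_of_mem fun m _ => one_dvd m]
    have h2 := gcd_ineq k ⌊y⌋₊ hmul
    have h3 : ∑ m ∈ Icc 1 ⌊y⌋₊, ∑ M ∈ Icc 1 ⌊y⌋₊,
        (if Nat.gcd m M = 1 then (dk k m / m) * (dk k M / M) else 0) ≤ BB k h y y := by
      unfold BB
      refine Finset.sum_le_sum fun m _ => Finset.sum_le_sum fun M _ => ?_
      by_cases hg : Nat.gcd m M = 1
      · rw [if_pos hg, hg, if_pos (one_dvd h), div_mul_div_comm]
        simp
      · rw [if_neg hg]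
        split_ifs
        · exact div_nonneg (mul_nonneg (mul_nonneg (dk_nonneg _ _) (dk_nonneg _ _))
            (Nat.cast_nonneg _)) (mul_nonneg (Nat.cast_nonneg _) (Nat.cast_nonneg _))
        · exact le_rfl
    have h4 : ∑ g ∈ Icc 1 ⌊y⌋₊, (dk k g / (g : ℝ)) ^ 2 ≤ K := by
      have := hsum.sum_le_tsum (Icc 1 ⌊y⌋₊) (fun _ _ => sq_nonneg _)
      linarith
    have h5 : 0 ≤ ∑ m ∈ Icc 1 ⌊y⌋₊, ∑ M ∈ Icc 1 ⌊y⌋₊,
        (if Nat.gcd m M = 1 then (dk k m / m) * (dk k M / M) else 0) := by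
      refine Finset.sum_nonneg fun m _ => Finset.sum_nonneg fun M _ => ?_
      split_ifs
      · exact mul_nonneg (div_nonneg (dk_nonneg _ _) (Nat.cast_nonneg _))
          (div_nonneg (dk_nonneg _ _) (Nat.cast_nonneg _))
      · exact le_rfl
    rw [h1]
    calc (∑ m ∈ Icc 1 ⌊y⌋₊, dk k m / m) ^ 2 ≤ _ := h2
      _ ≤ K * ∑ m ∈ Icc 1 ⌊y⌋₊, ∑ M ∈ Icc 1 ⌊y⌋₊,
        (if Nat.gcd m M = 1 then (dk k m / m) * (dk k M / M) else 0) :=
          mul_le_mul_of_nonneg_right h4 h5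
      _ ≤ K * BB k h y y := mul_le_mul_of_nonneg_left h3 hK0.le
      _ = BB k h y y * K := mul_comm _ _
  have hlim1 : Tendsto (fun y : ℝ => (LL k y 1 / Real.log y ^ k) ^ 2 / K) atTop
      (𝓝 ((Pr k 1 / k.factorial) ^ 2 / K)) :=
    ((hLa 1 le_rfl).pow 2).div_const K
  have hle : (Pr k 1 / (k.factorial : ℝ)) ^ 2 / K ≤
      1 ^ k * 1 ^ k / (k.factorial : ℝ) ^ 2 * SS (k + 1) h := by
    refine le_of_tendsto_of_tendsto hlim1 hBB ?_
    filter_upwards [eventually_gt_atTop 1] with y hy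
    have hlog : 0 < Real.log y := Real.log_pos hy
    have hlk : 0 < Real.log y ^ (2 * k) := by positivity
    rw [Real.rpow_one]
    calc (LL k y 1 / Real.log y ^ k) ^ 2 / K = (LL k y 1) ^ 2 / K / Real.log y ^ (2 * k) := by
          rw [div_pow, ← pow_mul, mul_comm k 2]
          ring
      _ ≤ BB k h y y / Real.log y ^ (2 * k) :=
          div_le_div_of_nonneg_right (hineq y) hlk.le
  rw [Pr_one] at hle
  have hfac : (0 : ℝ) < (k.factorial : ℝ) := by exact_mod_cast Nat.factorial_pos k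
  have hpos : 0 < (1 / (k.factorial : ℝ)) ^ 2 / K := by positivity
  have h6 : 0 < 1 ^ k * 1 ^ k / (k.factorial : ℝ) ^ 2 * SS (k + 1) h := lt_of_lt_of_le hpos hle
  rw [one_pow, mul_one] at h6
  have h7 : (0 : ℝ) < 1 / (k.factorial : ℝ) ^ 2 := by positivity
  exact (mul_pos_iff_of_pos_left h7).mp h6

end Pool.Agent.H896R2.ADC
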